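import Pool.Agent.H61.HB.Stmts4

/-!
# Project HB, row DCA: the approximate solution is small for positive times and close to `p` at `0`
-/

set_option autoImplicit false

open Filter Topology

namespace HB

private theorem dca_nsq_smul (s : ℝ) (c : ℂ) (u : V) :
    nsq s (fun j k => c * u j k) = ‖c‖ ^ 2 * nsq s u := by
  unfold nsq nqS
  rw [Finset.mul_sum]
  refine Finset.sum_congr rfl fun j _ => ?_
  rw [← tsum_mul_left]
  refine tsum_congr fun k => ?_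
  rw [norm_mul]
  ring

private theorem dca_mem_smul (s : ℝ) (c : ℂ) (u : V) (hu : Mem s u) :
    Mem s (fun j k => c * u j k) := by
  intro j
  have h := (hu j).mul_left (‖c‖ ^ 2)
  refine h.congr fun k => ?_
  rw [norm_mul]
  ring

/-- Row `DCA`. -/
theorem dca_thm (hNRW : NRWStmt) (hFSA : FSAStmt) (hFSB : FSBStmt) (hMMB : MMBStmt) : DCAStmt := by
  intro ν M r ε p hν hM hr hε hp
  obtain ⟨K, N₀, hK, hN⟩ := hNRW ν M r p hM (by linarith) hp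
  obtain ⟨K1, N1, hK1, hN1⟩ := hNRW ν M 1 p hM (by norm_num) hp
  have hP0 : 0 ≤ nsq (-1) p := hMMB.2.2.2.1 (-1) p
  have T1 : Tendsto (fun n : ℕ => K * (n : ℝ) ^ (-(4 * r - 6))) atTop (𝓝 0) := by
    have h1 : Tendsto (fun x : ℝ => x ^ (-(4 * r - 6))) atTop (𝓝 0) :=
      tendsto_rpow_neg_atTop (by linarith)
    have h2 := (h1.comp tendsto_natCast_atTop_atTop).const_mul K
    simpa [Function.comp_def] using h2
  have T2 : Tendsto (fun n : ℕ => (2 * nsq (-1) p + 2 * K1) / (ν * ε) * (1 / (n : ℝ))) atTop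
      (𝓝 0) := by
    have h2 := (tendsto_one_div_atTop_nhds_zero_nat (𝕜 := ℝ)).const_mul
      ((2 * nsq (-1) p + 2 * K1) / (ν * ε))
    simpa using h2
  have E := ((T1.eventually_lt_const hε).and (T2.eventually_lt_const hε)).and
    ((eventually_ge_atTop N₀).and (eventually_ge_atTop N1))
  obtain ⟨n₀, hn₀⟩ := eventually_atTop.1 E
  refine ⟨n₀, fun n hn hn1 => ?_⟩
  obtain ⟨⟨e1, e2⟩, e3, e4⟩ := hn₀ n hn
  have hnpos : (0 : ℝ) < n := by exact_mod_cast hn1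
  have hn1' : (1 : ℝ) ≤ n := by exact_mod_cast hn1
  have hnsq : n ≤ n ^ 2 := by nlinarith
  have hcast : ((n ^ 2 : ℕ) : ℤ) = (n : ℤ) ^ 2 := by push_cast; ring
  have hO : nsq (-r) (osc ν p ((n : ℤ) ^ 2)) ≤ K * (((n : ℝ) ^ 2) ^ 2) ^ (-r) := by
    have := hN (n ^ 2) (e3.trans hnsq) (hn1.trans hnsq)
    rw [hcast] at this
    simpa using this
  have hO1 : nsq (-1) (osc ν p ((n : ℤ) ^ 2)) ≤ K1 := by
    have := hN1 (n ^ 2) (e4.trans hnsq) (hn1.trans hnsq)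
    rw [hcast] at this
    refine this.trans ?_
    have h1 : ((((n ^ 2 : ℕ) : ℝ)) ^ 2) ^ (-1 : ℝ) ≤ 1 := by
      rw [Real.rpow_neg_one]
      apply inv_le_one_of_one_le₀
      have : (1 : ℝ) ≤ ((n ^ 2 : ℕ) : ℝ) := by exact_mod_cast hn1.trans hnsq
      nlinarith
    calc K1 * ((((n ^ 2 : ℕ) : ℝ)) ^ 2) ^ (-1 : ℝ) ≤ K1 * 1 := by gcongr
      _ = K1 := mul_one _
  have hFs := hFSA ν M p n 1 hM hp
  have hMo : Mem (-1) (osc ν p ((n : ℤ) ^ 2)) := hFSB.2.1 _ (-1) _ hFs.2.2.1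
  have hMp : Mem (-1) p := hFSB.2.1 M (-1) p hp
  constructor
  · have h1 : apx ν p n 1 - p =
        fun j k => (((n : ℝ) ^ 3 : ℝ) : ℂ) * osc ν p ((n : ℤ) ^ 2) j k := by
      funext j k
      simp only [apx, Pi.sub_apply]
      push_cast
      ring
    rw [h1, dca_nsq_smul, Complex.norm_real, Real.norm_eq_abs, sq_abs]
    refine lt_of_le_of_lt ?_ e1
    have h2 : (((n : ℝ) ^ 2) ^ 2) ^ (-r) = (n : ℝ) ^ (4 * (-r)) := by
      rw [← pow_mul, Real.rpow_mul hnpos.le]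
      norm_num
    have h3 : ((n : ℝ) ^ 3) ^ 2 = (n : ℝ) ^ (6 : ℝ) := by
      rw [← pow_mul]
      norm_num
    calc ((n : ℝ) ^ 3) ^ 2 * nsq (-r) (osc ν p ((n : ℤ) ^ 2))
        ≤ ((n : ℝ) ^ 3) ^ 2 * (K * (((n : ℝ) ^ 2) ^ 2) ^ (-r)) := by gcongr
      _ = K * ((n : ℝ) ^ (6 : ℝ) * (n : ℝ) ^ (4 * (-r))) := by rw [h2, h3]; ring
      _ = K * (n : ℝ) ^ (-(4 * r - 6)) := by
        rw [← Real.rpow_add hnpos]
        congr 2
        ring
  · intro t ht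
    set θ : ℝ := tht ν n t with hθ
    have hθ0 : 0 ≤ θ := by rw [hθ]; exact (Real.exp_pos _).le
    have hx0 : 0 ≤ ν * (n : ℝ) ^ 8 * t := by
      have : 0 ≤ t := hε.le.trans ht
      positivity
    have hθ1 : θ ≤ 1 := by
      rw [hθ, tht, Real.exp_le_one_iff]
      linarith
    have hθx : θ * (ν * ε * (n : ℝ) ^ 8) ≤ 1 := by
      have h1 : ν * ε * (n : ℝ) ^ 8 ≤ ν * (n : ℝ) ^ 8 * t := by
        have : ν * (n : ℝ) ^ 8 * ε ≤ ν * (n : ℝ) ^ 8 * t := by gcongr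
        linarith
      have h2 : ν * (n : ℝ) ^ 8 * t ≤ Real.exp (ν * (n : ℝ) ^ 8 * t) := by
        linarith [Real.add_one_le_exp (ν * (n : ℝ) ^ 8 * t)]
      have h3 : θ * Real.exp (ν * (n : ℝ) ^ 8 * t) = 1 := by
        rw [hθ, tht, ← Real.exp_add]
        rw [Real.exp_eq_one_iff]
        ring
      calc θ * (ν * ε * (n : ℝ) ^ 8) ≤ θ * Real.exp (ν * (n : ℝ) ^ 8 * t) := by
            gcongr
            exact h1.trans h2
        _ = 1 := h3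
    have hθb : θ ≤ 1 / (ν * ε * (n : ℝ) ^ 8) := by
      rw [le_div_iff₀ (by positivity)]
      exact hθx
    have h1 : apx ν p n θ = (fun j k => ((θ ^ 2 : ℝ) : ℂ) * p j k) +
        fun j k => (((n : ℝ) ^ 3 * θ : ℝ) : ℂ) * osc ν p ((n : ℤ) ^ 2) j k := by
      funext j k
      simp only [apx, Pi.add_apply]
    have h2 := (hMMB.2.2.2.2.2 (-1) (fun j k => ((θ ^ 2 : ℝ) : ℂ) * p j k)
      (fun j k => (((n : ℝ) ^ 3 * θ : ℝ) : ℂ) * osc ν p ((n : ℤ) ^ 2) j k)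
      (dca_mem_smul _ _ _ hMp) (dca_mem_smul _ _ _ hMo)).2.2.2
    rw [h1]
    refine lt_of_le_of_lt h2 ?_
    rw [dca_nsq_smul, dca_nsq_smul, Complex.norm_real, Complex.norm_real, Real.norm_eq_abs,
      Real.norm_eq_abs, sq_abs, sq_abs]
    refine lt_of_le_of_lt ?_ e2
    have h4 : (θ ^ 2) ^ 2 ≤ 1 / (ν * ε) * (1 / (n : ℝ)) := by
      have a1 : (θ ^ 2) ^ 2 ≤ θ := by
        have : θ ^ 4 ≤ θ ^ 1 := pow_le_pow_of_le_one hθ0 hθ1 (by norm_num)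
        calc (θ ^ 2) ^ 2 = θ ^ 4 := by ring
          _ ≤ θ ^ 1 := this
          _ = θ := pow_one _
      have a2 : 1 / (ν * ε * (n : ℝ) ^ 8) ≤ 1 / (ν * ε) * (1 / (n : ℝ)) := by
        rw [div_mul_div_comm, one_mul]
        apply one_div_le_one_div_of_le (by positivity)
        have : (n : ℝ) ^ 1 ≤ (n : ℝ) ^ 8 := pow_le_pow_right₀ hn1' (by norm_num)
        rw [pow_one] at this
        gcongr
      exact a1.trans (hθb.trans a2)
    have h5 : ((n : ℝ) ^ 3 * θ) ^ 2 ≤ 1 / (ν * ε) * (1 / (n : ℝ)) := by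
      have a1 : θ ^ 2 ≤ θ := by nlinarith
      have a2 : (n : ℝ) ^ 6 * (1 / (ν * ε * (n : ℝ) ^ 8)) ≤ 1 / (ν * ε) * (1 / (n : ℝ)) := by
        have e : (n : ℝ) ^ 6 * (1 / (ν * ε * (n : ℝ) ^ 8)) = 1 / (ν * ε) * (1 / (n : ℝ) ^ 2) := by
          field_simp
        rw [e]
        gcongr
        nlinarith
      calc ((n : ℝ) ^ 3 * θ) ^ 2 = (n : ℝ) ^ 6 * θ ^ 2 := by ring
        _ ≤ (n : ℝ) ^ 6 * (1 / (ν * ε * (n : ℝ) ^ 8)) := by
            gcongr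
            exact a1.trans hθb
        _ ≤ _ := a2
    have hn0 : 0 ≤ 1 / (ν * ε) * (1 / (n : ℝ)) := by positivity
    calc 2 * ((θ ^ 2) ^ 2 * nsq (-1) p) + 2 * (((n : ℝ) ^ 3 * θ) ^ 2 *
          nsq (-1) (osc ν p ((n : ℤ) ^ 2)))
        ≤ 2 * (1 / (ν * ε) * (1 / (n : ℝ)) * nsq (-1) p) +
          2 * (1 / (ν * ε) * (1 / (n : ℝ)) * K1) := by
          have b1 : (θ ^ 2) ^ 2 * nsq (-1) p ≤ 1 / (ν * ε) * (1 / (n : ℝ)) * nsq (-1) p := by
            gcongr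
          have b2 : ((n : ℝ) ^ 3 * θ) ^ 2 * nsq (-1) (osc ν p ((n : ℤ) ^ 2)) ≤
              1 / (ν * ε) * (1 / (n : ℝ)) * K1 := by
            have c0 : 0 ≤ nsq (-1) (osc ν p ((n : ℤ) ^ 2)) := hMMB.2.2.2.1 (-1) _
            calc ((n : ℝ) ^ 3 * θ) ^ 2 * nsq (-1) (osc ν p ((n : ℤ) ^ 2))
                ≤ 1 / (ν * ε) * (1 / (n : ℝ)) * nsq (-1) (osc ν p ((n : ℤ) ^ 2)) := by gcongr
              _ ≤ 1 / (ν * ε) * (1 / (n : ℝ)) * K1 := by gcongr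
          linarith
      _ = (2 * nsq (-1) p + 2 * K1) / (ν * ε) * (1 / (n : ℝ)) := by
        field_simp

end HB
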