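import Mathlib
import Pool.Agent.H61.HB.Stmts

set_option autoImplicit false

namespace HB

open Set

theorem loc_sub (hPTH : PTHStmt) (hISO : ISOStmt) {s T : ℝ} {a b : ℝ → V} (hT : 0 ≤ T)
    (ha : Cts s T a) (hb : Cts s T b) : Cts s T (fun t => a t - b t) := by
  obtain ⟨f, hf⟩ := (hPTH s T a hT).1 ha
  obtain ⟨g, hg⟩ := (hPTH s T b hT).1 hb
  refine (hPTH s T _ hT).2 ⟨f - g, fun t => ?_⟩
  rw [← hf, ← hg, ← (hISO s).2.2]
  rfl

theorem loc_inj (hISO : ISOStmt) {s : ℝ} {f g : E} : ‖f - g‖ ^ 2 = nsq s (toV s f - toV s g) := by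
  rw [← (hISO s).2.2, ((hISO s).1 _).2]

theorem loc_bil (hBIL : BILStmt) (hMMB : MMBStmt) {s : ℝ} (hs : 2 ≤ s) :
    ∃ C : ℝ, 0 < C ∧ ∀ u v : V, Mem s u → Mem s v →
      Mem (s - 2) (adv u v) ∧ nsq (s - 2) (adv u v) ≤ C * (nsq s u * nsq s v) := by
  obtain ⟨C, hC, h⟩ := hBIL s hs
  refine ⟨2 * C, by positivity, fun u v hu hv => ?_⟩
  obtain ⟨m1, m2, m3, m4, m5, m6⟩ := hMMB
  refine ⟨fun j => (h u (v j) hu (hv j)).2.1, ?_⟩
  have h0 := (h u (v 0) hu (hv 0)).2.2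
  have h1 := (h u (v 1) hu (hv 1)).2.2
  have e1 : nsq (s - 2) (adv u v) = nqS (s - 2) (dot u (v 0)) + nqS (s - 2) (dot u (v 1)) := by
    unfold nsq
    rw [Fin.sum_univ_two]
    rfl
  have e2 : nsq s v = nqS s (v 0) + nqS s (v 1) := by
    unfold nsq
    rw [Fin.sum_univ_two]
  have e3 : nsq 2 v = nqS 2 (v 0) + nqS 2 (v 1) := by
    unfold nsq
    rw [Fin.sum_univ_two]
  have k1 := (m5 2 s u hs hu).2
  have k2 := (m5 2 s v hs hv).2
  have p1 := m4 s u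
  have p2 := m4 s v
  have p3 := m4 2 u
  have p4 := m4 2 v
  have q1 : nsq s u * nsq 2 v ≤ nsq s u * nsq s v := mul_le_mul_of_nonneg_left k2 p1
  have q2 : nsq 2 u * nsq s v ≤ nsq s u * nsq s v := mul_le_mul_of_nonneg_right k1 p2
  have h2 : nsq (s - 2) (adv u v) ≤ C * (nsq s u * nsq 2 v + nsq 2 u * nsq s v) := by
    rw [e1, e2, e3]
    calc _ ≤ _ := add_le_add h0 h1
      _ = _ := by ring
  calc nsq (s - 2) (adv u v) ≤ C * (nsq s u * nsq 2 v + nsq 2 u * nsq s v) := h2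
    _ ≤ C * (nsq s u * nsq s v + nsq s u * nsq s v) :=
        mul_le_mul_of_nonneg_left (add_le_add q1 q2) hC.le
    _ = 2 * C * (nsq s u * nsq s v) := by ring

theorem loc_diff (hLIN : LINStmt) (hMMB : MMBStmt) {s C M : ℝ} (hs : 2 ≤ s) (hC : 0 < C)
    (hb : ∀ u v : V, Mem s u → Mem s v →
      Mem (s - 2) (adv u v) ∧ nsq (s - 2) (adv u v) ≤ C * (nsq s u * nsq s v))
    (u v : V) (hu : Mem s u) (hv : Mem s v) (hu' : nsq s u ≤ M) (hv' : nsq s v ≤ M) :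
    nsq (s - 2) (adv u u - adv v v) ≤ 4 * C * M * nsq s (u - v) := by
  obtain ⟨m1, m2, m3, m4, m5, m6⟩ := hMMB
  have hu2 := (m5 2 s u hs hu).1
  have hv2 := (m5 2 s v hs hv).1
  have hsub := (m6 s u v hu hv).1
  have e : adv u u - adv v v = adv (u - v) u + adv v (u - v) := by
    funext j
    change dot u (u j) - dot v (v j) = dot (u - v) (u j) + dot v ((u - v) j)
    rw [hLIN.1 u v (u j) hu2 hv2 (hu2 j)]
    have : (u - v) j = u j - v j := rfl
    rw [this, hLIN.2.1 v (u j) (v j) hv2 (hu2 j) (hv2 j)]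
    abel
  obtain ⟨a1, a2⟩ := hb (u - v) u hsub hu
  obtain ⟨b1, b2⟩ := hb v (u - v) hv hsub
  have h1 := (m6 (s - 2) _ _ a1 b1).2.2.2
  rw [e]
  have p := m4 s (u - v)
  have q1 : nsq s (u - v) * nsq s u ≤ nsq s (u - v) * M := mul_le_mul_of_nonneg_left hu' p
  have q2 : nsq s v * nsq s (u - v) ≤ M * nsq s (u - v) := mul_le_mul_of_nonneg_right hv' p
  have q1' := mul_le_mul_of_nonneg_left q1 hC.le
  have q2' := mul_le_mul_of_nonneg_left q2 hC.le
  calc _ ≤ _ := h1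
    _ ≤ 2 * (C * (nsq s (u - v) * M)) + 2 * (C * (M * nsq s (u - v))) := by linarith
    _ = _ := by ring

theorem loc_duh_sub {ν T t : ℝ} {G H : ℝ → V} (ht : t ∈ Icc 0 T)
    (hG : ∀ j k, ContinuousOn (fun t => G t j k) (Icc 0 T))
    (hH : ∀ j k, ContinuousOn (fun t => H t j k) (Icc 0 T)) :
    duh ν G t - duh ν H t = duh ν (fun r => G r - H r) t := by
  funext j k
  have hi : ∀ F : ℝ → V, (∀ j k, ContinuousOn (fun t => F t j k) (Icc 0 T)) →
      IntervalIntegrable (fun r => (Real.exp (-(ν * sq k ^ 2) * (t - r)) : ℂ) * F r j k)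
        MeasureTheory.volume 0 t := by
    intro F hF
    apply ContinuousOn.intervalIntegrable
    rw [uIcc_of_le ht.1]
    refine ContinuousOn.mul ?_ ((hF j k).mono (Icc_subset_Icc le_rfl ht.2))
    apply Continuous.continuousOn
    fun_prop
  change (∫ r in (0 : ℝ)..t, (Real.exp (-(ν * sq k ^ 2) * (t - r)) : ℂ) * G r j k) -
    (∫ r in (0 : ℝ)..t, (Real.exp (-(ν * sq k ^ 2) * (t - r)) : ℂ) * H r j k) =
    ∫ r in (0 : ℝ)..t, (Real.exp (-(ν * sq k ^ 2) * (t - r)) : ℂ) * (G r j k - H r j k)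
  rw [← intervalIntegral.integral_sub (hi G hG) (hi H hH)]
  refine intervalIntegral.integral_congr fun r _ => ?_
  ring

theorem loc_rl_sub {u v : V} (hu : Rl u) (hv : Rl v) : Rl (u - v) := by
  intro j k
  change u j (-k) - v j (-k) = (starRingEnd ℂ) (u j k - v j k)
  rw [hu j k, hv j k, map_sub]

theorem loc_tri_sub {m : ℝ × ℝ} {u v : V} (hu : Tri m u) (hv : Tri m v) : Tri m (u - v) := by
  intro k
  have h1 := hu k
  have h2 := hv k
  change ((m.1 * k.2 - m.2 * k.1 : ℝ) : ℂ) * ((m.1 : ℂ) * (u 0 k - v 0 k) +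
    (m.2 : ℂ) * (u 1 k - v 1 k)) = 0
  linear_combination h1 - h2

theorem loc_sq_neg (k : Z2) : sq (-k) = sq k := by
  unfold sq
  simp

theorem loc_rl_sgr {ν t : ℝ} {u : V} (hu : Rl u) : Rl (sgr ν t u) := by
  intro j k
  change (Real.exp (-(ν * sq (-k) ^ 2) * t) : ℂ) * u j (-k) =
    (starRingEnd ℂ) ((Real.exp (-(ν * sq k ^ 2) * t) : ℂ) * u j k)
  rw [loc_sq_neg, hu j k, map_mul, Complex.conj_ofReal]

theorem loc_tri_sgr {ν t : ℝ} {m : ℝ × ℝ} {u : V} (hu : Tri m u) : Tri m (sgr ν t u) := by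
  intro k
  have h1 := hu k
  change ((m.1 * k.2 - m.2 * k.1 : ℝ) : ℂ) *
    ((m.1 : ℂ) * ((Real.exp (-(ν * sq k ^ 2) * t) : ℂ) * u 0 k) +
    (m.2 : ℂ) * ((Real.exp (-(ν * sq k ^ 2) * t) : ℂ) * u 1 k)) = 0
  linear_combination (Real.exp (-(ν * sq k ^ 2) * t) : ℂ) * h1

theorem loc_rl_duh {ν T t : ℝ} {G : ℝ → V} (ht : t ∈ Icc 0 T) (hG : ∀ r ∈ Icc 0 T, Rl (G r)) :
    Rl (duh ν G t) := by
  intro j k
  change (∫ r in (0 : ℝ)..t, (Real.exp (-(ν * sq (-k) ^ 2) * (t - r)) : ℂ) * G r j (-k)) =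
    (starRingEnd ℂ) (∫ r in (0 : ℝ)..t, (Real.exp (-(ν * sq k ^ 2) * (t - r)) : ℂ) * G r j k)
  rw [intervalIntegral.integral_of_le ht.1, intervalIntegral.integral_of_le ht.1,
    ← integral_conj]
  refine MeasureTheory.setIntegral_congr_fun measurableSet_Ioc fun r hr => ?_
  rw [loc_sq_neg, hG r ⟨hr.1.le, hr.2.trans ht.2⟩ j k, map_mul, Complex.conj_ofReal]

theorem loc_tri_duh {ν T t : ℝ} {m : ℝ × ℝ} {G : ℝ → V} (ht : t ∈ Icc 0 T)
    (hG : ∀ r ∈ Icc 0 T, Tri m (G r)) : Tri m (duh ν G t) := by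
  intro k
  change ((m.1 * k.2 - m.2 * k.1 : ℝ) : ℂ) *
    ((m.1 : ℂ) * (∫ r in (0 : ℝ)..t, (Real.exp (-(ν * sq k ^ 2) * (t - r)) : ℂ) * G r 0 k) +
    (m.2 : ℂ) * (∫ r in (0 : ℝ)..t, (Real.exp (-(ν * sq k ^ 2) * (t - r)) : ℂ) * G r 1 k)) = 0
  by_cases h0 : ((m.1 * k.2 - m.2 * k.1 : ℝ) : ℂ) = 0
  · rw [h0, zero_mul]
  · have h1 : (m.2 : ℂ) * (∫ r in (0 : ℝ)..t,
        (Real.exp (-(ν * sq k ^ 2) * (t - r)) : ℂ) * G r 1 k) =
        -((m.1 : ℂ) * (∫ r in (0 : ℝ)..t,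
          (Real.exp (-(ν * sq k ^ 2) * (t - r)) : ℂ) * G r 0 k)) := by
      rw [← intervalIntegral.integral_const_mul, ← intervalIntegral.integral_const_mul,
        ← intervalIntegral.integral_neg]
      refine intervalIntegral.integral_congr fun r hr => ?_
      rw [uIcc_of_le ht.1] at hr
      have h2 := (mul_eq_zero.1 (hG r ⟨hr.1, hr.2.trans ht.2⟩ k)).resolve_left h0
      linear_combination (Real.exp (-(ν * sq k ^ 2) * (t - r)) : ℂ) * h2
    rw [h1, add_neg_cancel, mul_zero]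

theorem loc_eval (i : Fin 2 × Z2) : Continuous fun f : E => f i := by
  refine LipschitzWith.continuous (K := 1) (LipschitzWith.of_dist_le_mul fun f g => ?_)
  rw [NNReal.coe_one, one_mul, dist_eq_norm, dist_eq_norm]
  exact lp.norm_apply_le_norm (by norm_num) (f - g) i

theorem loc_toV (s : ℝ) (j : Fin 2) (k : Z2) : Continuous fun f : E => toV s f j k :=
  continuous_const.mul (loc_eval (j, k))

theorem loc_thm (hPTH : PTHStmt) (hISO : ISOStmt) (hSGC : SGCStmt) (hDUB : DUBStmt)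
    (hDUC : DUCStmt) (hBIL : BILStmt) (hLIN : LINStmt) (hADC : ADCStmt) (hREA : REAStmt)
    (hTRA : TRAStmt) (hMLD : MLDStmt) (hMMB : MMBStmt) (hCON : CONStmt) : LOCStmt := by
  intro ν s R hν hs hR
  obtain ⟨C, hC, hb⟩ := loc_bil hBIL hMMB hs
  have hMMB' := hMMB
  obtain ⟨m1, m2, m3, m4, m5, m6⟩ := hMMB
  obtain ⟨M, hM⟩ : ∃ M : ℝ, M = 4 * R + 4 := ⟨_, rfl⟩
  have hM0 : 0 < M := by rw [hM]; linarith
  obtain ⟨D, hD⟩ : ∃ D : ℝ, D = (1 + 2 / ν) * C * (M ^ 2 + 4 * M) := ⟨_, rfl⟩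
  have hD0 : 0 < D := by rw [hD]; positivity
  obtain ⟨τ, hτd⟩ : ∃ τ : ℝ, τ = 1 / (4 * D + 1) := ⟨_, rfl⟩
  have hτ : 0 < τ := by rw [hτd]; positivity
  have hτ1 : τ ≤ 1 := by
    rw [hτd, div_le_one (by positivity)]
    linarith
  have hτD : τ * D ≤ 1 / 4 := by
    rw [hτd, div_mul_eq_mul_div, one_mul, div_le_iff₀ (by positivity)]
    linarith
  have hν2 : 0 < 2 / ν := by positivity
  have hi1 : (τ + 2 / ν) * (τ * (C * M ^ 2)) ≤ 1 / 4 := by
    refine le_trans ?_ hτD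
    rw [hD]
    have h1 : (τ + 2 / ν) * (τ * (C * M ^ 2)) ≤ (1 + 2 / ν) * (τ * (C * M ^ 2)) :=
      mul_le_mul_of_nonneg_right (by linarith) (by positivity)
    have h2 : (0 : ℝ) ≤ (1 + 2 / ν) * (τ * (C * (4 * M))) := by positivity
    calc _ ≤ _ := h1
      _ ≤ (1 + 2 / ν) * (τ * (C * M ^ 2)) + (1 + 2 / ν) * (τ * (C * (4 * M))) := by linarith
      _ = _ := by ring
  have hi2 : (τ + 2 / ν) * (τ * (4 * C * M)) ≤ 1 / 4 := by
    refine le_trans ?_ hτD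
    rw [hD]
    have h1 : (τ + 2 / ν) * (τ * (4 * C * M)) ≤ (1 + 2 / ν) * (τ * (4 * C * M)) :=
      mul_le_mul_of_nonneg_right (by linarith) (by positivity)
    have h2 : (0 : ℝ) ≤ (1 + 2 / ν) * (τ * (C * M ^ 2)) := by positivity
    calc _ ≤ _ := h1
      _ ≤ (1 + 2 / ν) * (τ * (4 * C * M)) + (1 + 2 / ν) * (τ * (C * M ^ 2)) := by linarith
      _ = _ := by ring
  refine ⟨τ, hτ, fun u₀ hu₀ hu₀R => ?_⟩
  -- paths
  obtain ⟨U, hUd⟩ : ∃ U : C(Icc (0 : ℝ) τ, E) → ℝ → V,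
      U = fun g t => toV s (g (projIcc 0 τ hτ.le t)) := ⟨_, rfl⟩
  have hUt : ∀ (g : C(Icc (0 : ℝ) τ, E)) (t : Icc (0 : ℝ) τ), U g t = toV s (g t) := by
    intro g t
    rw [hUd]
    simp only [projIcc_val]
  have hUm : ∀ (g : C(Icc (0 : ℝ) τ, E)) (r : ℝ) (hr : r ∈ Icc 0 τ), U g r = toV s (g ⟨r, hr⟩) :=
    fun g r hr => hUt g ⟨r, hr⟩
  have hUc : ∀ g, Cts s τ (U g) := fun g =>
    (hPTH s τ (U g) hτ.le).2 ⟨g, fun t => (hUt g t).symm⟩
  have hAc : ∀ g, Cts (s - 2) τ (fun r => adv (U g r) (U g r)) := fun g => hADC s τ _ hs (hUc g)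
  have hWc : ∀ g, Cts s τ (fun t => sgr ν t u₀ - duh ν (fun r => adv (U g r) (U g r)) t) :=
    fun g => loc_sub hPTH hISO hτ.le (hSGC ν s τ u₀ hν hτ.le hu₀).1
      (hDUC ν s τ _ hν hτ.le (hAc g))
  have hex : ∀ g, ∃ g' : C(Icc (0 : ℝ) τ, E), ∀ t : Icc (0 : ℝ) τ,
      toV s (g' t) = sgr ν t u₀ - duh ν (fun r => adv (U g r) (U g r)) t :=
    fun g => (hPTH s τ _ hτ.le).1 (hWc g)
  choose Φ hΦ using hex
  obtain ⟨S, hS⟩ : ∃ S : Set C(Icc (0 : ℝ) τ, E), S = {g | ∀ t : Icc (0 : ℝ) τ, ‖g t‖ ^ 2 ≤ M ∧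
      (Rl u₀ → Rl (toV s (g t))) ∧ ∀ m : ℝ × ℝ, m ≠ 0 → Tri m u₀ → Tri m (toV s (g t))} :=
    ⟨_, rfl⟩
  have hSm : ∀ g, g ∈ S ↔ ∀ t : Icc (0 : ℝ) τ, ‖g t‖ ^ 2 ≤ M ∧
      (Rl u₀ → Rl (toV s (g t))) ∧ ∀ m : ℝ × ℝ, m ≠ 0 → Tri m u₀ → Tri m (toV s (g t)) := by
    intro g
    rw [hS]
    rfl
  have hev : ∀ t : Icc (0 : ℝ) τ, Continuous fun g : C(Icc (0 : ℝ) τ, E) => g t :=
    fun t => continuous_eval_const t
  have hSc : IsClosed S := by
    rw [hS]
    simp only [Set.ofPred_forall, Set.ofPred_and]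
    refine isClosed_iInter fun t => IsClosed.inter ?_ (IsClosed.inter ?_ ?_)
    · exact isClosed_le ((continuous_norm.comp (hev t)).pow 2) continuous_const
    · refine isClosed_iInter fun _ => ?_
      unfold Rl
      simp only [Set.ofPred_forall]
      refine isClosed_iInter fun j => isClosed_iInter fun k => ?_
      exact isClosed_eq ((loc_toV s j (-k)).comp (hev t))
        (Complex.continuous_conj.comp ((loc_toV s j k).comp (hev t)))
    · refine isClosed_iInter fun m => isClosed_iInter fun _ => isClosed_iInter fun _ => ?_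
      unfold Tri
      simp only [Set.ofPred_forall]
      refine isClosed_iInter fun k => ?_
      exact isClosed_eq (continuous_const.mul ((continuous_const.mul
        ((loc_toV s 0 k).comp (hev t))).add (continuous_const.mul
        ((loc_toV s 1 k).comp (hev t))))) continuous_const
  -- bounds
  have hUb : ∀ g ∈ S, ∀ r ∈ Icc 0 τ, Mem s (U g r) ∧ nsq s (U g r) ≤ M := by
    intro g hg r hr
    rw [hUm g r hr, ((hISO s).1 _).2]
    exact ⟨((hISO s).1 _).1, ((hSm g).1 hg ⟨r, hr⟩).1⟩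
  have hmap : MapsTo Φ S S := by
    intro g hg
    rw [hSm]
    intro t
    refine ⟨?_, ?_, ?_⟩
    · rw [← ((hISO s).1 _).2, hΦ]
      have h1 := (m6 s (sgr ν t u₀) (duh ν (fun r => adv (U g r) (U g r)) t)
        ((hSGC ν s τ u₀ hν hτ.le hu₀).1.1 t t.2)
        ((hDUC ν s τ _ hν hτ.le (hAc g)).1 t t.2)).2.2.1
      have h2 := (hSGC ν s τ u₀ hν hτ.le hu₀).2 t t.2.1
      have h3 := (hDUB ν s τ _ hν hτ.le (hAc g) t t.2).2
      have h4 : ∫ r in (0 : ℝ)..t, nsq (s - 2) (adv (U g r) (U g r)) ≤ τ * (C * M ^ 2) := by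
        have h5 := intervalIntegral.norm_integral_le_of_norm_le_const
          (a := (0 : ℝ)) (b := (t : ℝ)) (C := C * M ^ 2)
          (f := fun r => nsq (s - 2) (adv (U g r) (U g r))) (by
            intro r hr
            rw [uIoc_of_le t.2.1] at hr
            have hr' : r ∈ Icc (0 : ℝ) τ := ⟨hr.1.le, hr.2.trans t.2.2⟩
            obtain ⟨k1, k2⟩ := hUb g hg r hr'
            rw [Real.norm_of_nonneg (m4 _ _)]
            refine (hb _ _ k1 k1).2.trans (mul_le_mul_of_nonneg_left ?_ hC.le)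
            rw [pow_two M]
            exact mul_le_mul k2 k2 (m4 _ _) hM0.le)
        refine (le_trans (le_abs_self _) h5).trans ?_
        rw [sub_zero, abs_of_nonneg t.2.1, mul_comm]
        exact mul_le_mul_of_nonneg_right t.2.2 (by positivity)
      have h6 : (τ + 2 / ν) * ∫ r in (0 : ℝ)..t, nsq (s - 2) (adv (U g r) (U g r)) ≤ 1 / 4 :=
        (mul_le_mul_of_nonneg_left h4 (by positivity)).trans hi1
      rw [hM]
      linarith
    · intro hrl
      rw [hΦ]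
      refine loc_rl_sub (loc_rl_sgr hrl) (loc_rl_duh t.2 fun r hr => ?_)
      have h1 := (hUb g hg r hr).1
      refine hREA _ (m5 2 s _ hs h1).1 ?_
      rw [hUm g r hr]
      exact ((hSm g).1 hg ⟨r, hr⟩).2.1 hrl
    · intro m hm htri
      rw [hΦ]
      refine loc_tri_sub (loc_tri_sgr htri) (loc_tri_duh t.2 fun r hr => ?_)
      have h1 := (hUb g hg r hr).1
      refine hTRA m _ hm (m5 2 s _ hs h1).1 ?_
      rw [hUm g r hr]
      exact ((hSm g).1 hg ⟨r, hr⟩).2.2 m hm htri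
  have hlip : ∀ g ∈ S, ∀ h ∈ S, dist (Φ g) (Φ h) ≤ 1 / 2 * dist g h := by
    intro g hg h hh
    rw [ContinuousMap.dist_le (by positivity)]
    intro t
    have hle : ∀ r ∈ Icc 0 τ, nsq s (U h r - U g r) ≤ dist g h ^ 2 := by
      intro r hr
      rw [hUm g r hr, hUm h r hr, ← loc_inj hISO]
      have h1 : ‖h ⟨r, hr⟩ - g ⟨r, hr⟩‖ ≤ dist g h := by
        rw [← dist_eq_norm, dist_comm]
        exact ContinuousMap.dist_apply_le_dist _
      exact pow_le_pow_left₀ (norm_nonneg _) h1 2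
    have hcg := (hCON (s - 2) τ _ (hAc g)).1
    have hch := (hCON (s - 2) τ _ (hAc h)).1
    have e : toV s (Φ g t) - toV s (Φ h t) =
        duh ν (fun r => adv (U h r) (U h r) - adv (U g r) (U g r)) t := by
      rw [hΦ, hΦ, ← loc_duh_sub (ν := ν) (G := fun r => adv (U h r) (U h r))
        (H := fun r => adv (U g r) (U g r)) t.2 hch hcg]
      abel
    have h2 : ‖Φ g t - Φ h t‖ ^ 2 ≤ (τ + 2 / ν) * (τ * (4 * C * M * dist g h ^ 2)) := by
      rw [loc_inj hISO (s := s), e]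
      have h3 := (hDUB ν s τ _ hν hτ.le (loc_sub hPTH hISO hτ.le (hAc h) (hAc g)) t t.2).2
      refine h3.trans (mul_le_mul_of_nonneg_left ?_ (by positivity))
      have h5 := intervalIntegral.norm_integral_le_of_norm_le_const
        (a := (0 : ℝ)) (b := (t : ℝ)) (C := 4 * C * M * dist g h ^ 2)
        (f := fun r => nsq (s - 2) (adv (U h r) (U h r) - adv (U g r) (U g r))) (by
          intro r hr
          rw [uIoc_of_le t.2.1] at hr
          have hr' : r ∈ Icc (0 : ℝ) τ := ⟨hr.1.le, hr.2.trans t.2.2⟩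
          obtain ⟨k1, k2⟩ := hUb g hg r hr'
          obtain ⟨k3, k4⟩ := hUb h hh r hr'
          rw [Real.norm_of_nonneg (m4 _ _)]
          refine (loc_diff hLIN hMMB' hs hC hb _ _ k3 k1 k4 k2).trans ?_
          exact mul_le_mul_of_nonneg_left (hle r hr') (by positivity))
      refine (le_trans (le_abs_self _) h5).trans ?_
      rw [sub_zero, abs_of_nonneg t.2.1, mul_comm]
      exact mul_le_mul_of_nonneg_right t.2.2 (by positivity)
    have h6 : ‖Φ g t - Φ h t‖ ^ 2 ≤ (1 / 2 * dist g h) ^ 2 := by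
      refine h2.trans ?_
      have h7 := mul_le_mul_of_nonneg_right hi2 (sq_nonneg (dist g h))
      calc _ = (τ + 2 / ν) * (τ * (4 * C * M)) * dist g h ^ 2 := by ring
        _ ≤ _ := h7
        _ = _ := by ring
    rw [dist_eq_norm]
    exact le_of_sq_le_sq h6 (by positivity)
  -- a point of S
  obtain ⟨f₀, hf₀⟩ := (hISO s).2.1 u₀ hu₀
  have hx : ContinuousMap.const (Icc (0 : ℝ) τ) f₀ ∈ S := by
    rw [hSm]
    intro t
    rw [ContinuousMap.const_apply, hf₀]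
    refine ⟨?_, fun h => h, fun m _ h => h⟩
    rw [← ((hISO s).1 _).2, hf₀, hM]
    linarith
  have hcon : ContractingWith (1 / 2 : NNReal) (hmap.restrict Φ S S) := by
    refine ⟨?_, LipschitzWith.of_dist_le_mul fun a b => ?_⟩
    · rw [← NNReal.coe_lt_coe]
      norm_num
    · have := hlip a a.2 b b.2
      change dist (Φ a) (Φ b) ≤ ((1 / 2 : NNReal) : ℝ) * dist (a : C(Icc (0 : ℝ) τ, E)) b
      rw [NNReal.coe_div, NNReal.coe_one, NNReal.coe_ofNat]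
      exact this
  obtain ⟨g, hgS, hfix, -⟩ := hcon.exists_fixedPoint' hSc.isComplete hmap hx (edist_ne_top _ _)
  have hfix' : Φ g = g := hfix
  have heq : ∀ t ∈ Icc 0 τ, U g t = sgr ν t u₀ - duh ν (fun r => adv (U g r) (U g r)) t := by
    intro t ht
    have h1 := hΦ g ⟨t, ht⟩
    rw [hfix'] at h1
    rw [hUm g t ht]
    exact h1
  have h00 : U g 0 = u₀ := by
    rw [heq 0 ⟨le_rfl, hτ.le⟩]
    funext j k
    change (Real.exp (-(ν * sq k ^ 2) * 0) : ℂ) * u₀ j k -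
      ∫ r in (0 : ℝ)..0, (Real.exp (-(ν * sq k ^ 2) * (0 - r)) : ℂ) *
        adv (U g r) (U g r) j k = u₀ j k
    rw [intervalIntegral.integral_same, mul_zero, Real.exp_zero]
    simp
  refine ⟨U g, (hMLD ν s τ (U g) hν hs hτ.le).2 ⟨hUc g, fun t ht => ?_⟩, h00, fun t ht => ?_,
    fun hrl t ht => ?_, fun m hm htri t ht => ?_⟩
  · rw [h00]
    exact heq t ht
  · rw [← hM]
    exact (hUb g hgS t ht).2
  · rw [hUm g t ht]
    exact ((hSm g).1 hgS ⟨t, ht⟩).2.1 hrl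
  · rw [hUm g t ht]
    exact ((hSm g).1 hgS ⟨t, ht⟩).2.2 m hm htri

end HB
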